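import Mathlib
import Pool.Agent.W526.LL.Stm

/-! LL-EIS: from the counting function to the Eisenstein-type form (MP_5ae62c_nt). -/

namespace Pool.Agent.W340.LLEis

open IsDedekindDomain WithZero Polynomial Topology
open Pool.Agent.W526.LL

/-! ### Generalities -/

theorem zi_comm (g : GA) : zi * g = g * zi := by
  refine ext_GA fun q => ?_
  rw [mul_apply, mul_apply]
  rcases eq_or_ne q none with rfl | hq
  · unfold zi; rw [inj_same]; exact sc_comm _ _ _
  · unfold zi; rw [inj_ne hq]; simp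

theorem zi_commute (g : GA) : Commute zi g := zi_comm g

theorem zpow_comm (g : GA) (n : ℤ) : zi ^ n * g = g * zi ^ n :=
  ((zi_commute g).zpow_left n).eq

theorem pow_comm' (g : GA) (n : ℕ) : zi ^ n * g = g * zi ^ n :=
  ((zi_commute g).pow_left n).eq

theorem inj_mem (p : Pl) {k : GL (Fin 2) (Kv p)} (hk : k ∈ maxK (Kv p)) (q : Pl) :
    inj p k q ∈ maxK (Kv q) := by
  rcases eq_or_ne q p with rfl | hq
  · rw [inj_same]; exact hk
  · rw [inj_ne hq]; exact one_mem _

theorem inj_comm {p q : Pl} (h : p ≠ q) (a : GL (Fin 2) (Kv p)) (b : GL (Fin 2) (Kv q)) :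
    inj p a * inj q b = inj q b * inj p a := by
  refine ext_GA fun r => ?_
  rw [mul_apply, mul_apply]
  rcases eq_or_ne r p with rfl | hr
  · rw [inj_ne h]; simp
  · rw [inj_ne hr]; simp

theorem al_ws_al {p : Pl} (D : LD (Kv p)) : D.al * ws * D.al = D.z * ws := by
  unfold LD.al LD.z
  apply ext4 <;> simp [mul_ij, dg, sc, ws]

/-! ### The operator `E` on sequences -/

/-- sequences which vanish at `+∞` and are equal to `C` at `-∞` -/
structure Good (C : ℂ) (u : ℤ → ℂ) : Prop where
  pos : ∃ n₀ : ℕ, ∀ n : ℕ, n₀ ≤ n → u n = 0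
  neg : ∃ n₀ : ℕ, ∀ n : ℕ, n₀ ≤ n → u (-(n : ℤ)) = C

/-- the regularised term -/
noncomputable def term (C : ℂ) (u : ℤ → ℂ) (n : ℤ) : ℂ := u n - if n < 0 then C else 0

/-- the regularised sum -/
noncomputable def EE (C : ℂ) (u : ℤ → ℂ) : ℂ := ∑ᶠ n : ℤ, term C u n

theorem Good.fin {C : ℂ} {u : ℤ → ℂ} (h : Good C u) : (Function.support (term C u)).Finite := by
  obtain ⟨a, ha⟩ := h.pos
  obtain ⟨b, hb⟩ := h.neg
  refine (Set.finite_Icc (-((a : ℤ) + b + 1)) ((a : ℤ) + b + 1)).subset ?_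
  intro n hn
  by_contra hc
  apply hn
  rw [Set.mem_Icc, not_and_or] at hc
  unfold term
  rcases hc with hc | hc
  · have h1 : n = -((-n).toNat : ℤ) := by rw [Int.toNat_of_nonneg (by omega)]; ring
    have h2 : u n = C := by
      rw [h1]; exact hb _ (by omega)
    rw [h2, if_pos (by omega), sub_self]
  · have h1 : n = (n.toNat : ℤ) := by rw [Int.toNat_of_nonneg (by omega)]
    have h2 : u n = 0 := by
      rw [h1]; exact ha _ (by omega)
    rw [h2, if_neg (by omega), sub_self]

theorem Good.shift {C : ℂ} {u : ℤ → ℂ} (h : Good C u) : Good C (fun n => u (n + 1)) := by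
  obtain ⟨a, ha⟩ := h.pos
  obtain ⟨b, hb⟩ := h.neg
  refine ⟨⟨a, fun n hn => ?_⟩, ⟨b + 1, fun n hn => ?_⟩⟩
  · have := ha (n + 1) (by omega)
    simpa using this
  · have := hb (n - 1) (by omega)
    have e : (-(n : ℤ) + 1) = -((n - 1 : ℕ) : ℤ) := by
      rw [Nat.cast_sub (by omega)]; push_cast; ring
    show u (-(n : ℤ) + 1) = C
    rw [e]; exact this

theorem EE_shift {C : ℂ} {u : ℤ → ℂ} (h : Good C u) : EE C (fun n => u (n + 1)) = EE C u - C := by
  have h1 : EE C u - EE C (fun n => u (n + 1)) = C := by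
    have e1 : EE C (fun n => u (n + 1)) = ∑ᶠ n : ℤ, (u n - if n < 1 then C else 0) := by
      have h0 := finsum_comp_equiv (Equiv.addRight (1 : ℤ))
        (f := fun n : ℤ => (u n - if n < 1 then C else 0))
      rw [← h0]
      unfold EE
      refine finsum_congr fun n => ?_
      show (u (n + 1) - if n < 0 then C else 0) = u (n + 1) - if n + 1 < 1 then C else 0
      by_cases hn : n < 0
      · rw [if_pos hn, if_pos (by omega)]
      · rw [if_neg hn, if_neg (by omega)]
    rw [e1]
    unfold EE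
    have hf2 : (Function.support fun n : ℤ => (u n - if n < 1 then C else 0)).Finite := by
      refine (h.fin.union (Set.finite_singleton (0 : ℤ))).subset ?_
      intro n hn
      by_contra hc
      rw [Set.mem_union, not_or] at hc
      apply hn
      obtain ⟨hc1, hc2⟩ := hc
      have hc1' : term C u n = 0 := by simpa using hc1
      have hn0 : n ≠ 0 := by simpa using hc2
      unfold term at hc1'
      show (u n - if n < 1 then C else 0) = 0
      by_cases hn : n < 0
      · rw [if_pos hn] at hc1'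
        rw [if_pos (by omega)]; exact hc1'
      · rw [if_neg hn] at hc1'
        rw [if_neg (by omega)]; exact hc1'
    rw [← finsum_sub_distrib h.fin hf2]
    rw [finsum_eq_single _ (0 : ℤ)]
    · unfold term; simp
    · intro n hn
      unfold term
      by_cases hn : n < 0
      · rw [if_pos hn, if_pos (by omega)]; ring
      · rw [if_neg hn, if_neg (by omega)]; ring
  linear_combination -h1

/-- linear relations -/
theorem EE_rel {ι : Type} (T : Finset ι) {C : ℂ} (ut : ι → ℤ → ℂ) (u' u u'' : ℤ → ℂ)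
    (ht : ∀ t ∈ T, Good C (ut t)) (h' : Good C u') (h : Good C u) (h'' : Good C u'')
    (hrel : ∀ n, ∑ t ∈ T, ut t n + u' n = (T.card : ℂ) * u n + u'' n) :
    ∑ t ∈ T, EE C (ut t) + EE C u' = (T.card : ℂ) * EE C u + EE C u'' := by
  unfold EE
  rw [← finsum_sum_comm T (fun n t => term C (ut t) n) (fun t h => (ht t h).fin)]
  rw [mul_finsum' (fun n : ℤ => term C u n) (T.card : ℂ) h.fin]
  have hs1 : (Function.support fun n : ℤ => ∑ t ∈ T, term C (ut t) n).Finite := by
    refine (Set.Finite.biUnion T.finite_toSet fun t h => (ht t h).fin).subset ?_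
    intro n hn
    by_contra hc
    apply hn
    refine Finset.sum_eq_zero fun t ht => ?_
    by_contra h0
    exact hc (Set.mem_biUnion (by exact_mod_cast ht) h0)
  have hs2 : (Function.support fun n : ℤ => (T.card : ℂ) * term C u n).Finite := by
    refine h.fin.subset ?_
    intro n hn h0
    apply hn
    show (T.card : ℂ) * term C u n = 0
    rw [show term C u n = 0 from h0, mul_zero]
  rw [← finsum_add_distrib hs1 h'.fin, ← finsum_add_distrib hs2 h''.fin]
  refine finsum_congr fun n => ?_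
  unfold term
  have := hrel n
  rw [Finset.sum_sub_distrib, Finset.sum_const, nsmul_eq_mul]
  linear_combination this

/-! ### The eventual growth constant -/

section Main

variable {H : GA → ℕ}

/-- `m` is the growth constant of `g` -/
def IsMu (H : GA → ℕ) (g : GA) (m : ℂ) : Prop :=
  ∃ n₀ : ℕ, ∀ n : ℕ, n₀ ≤ n → (H (g * zi ^ (-(n : ℤ))) : ℂ) = m * 4 ^ n

theorem IsMu.unique {g : GA} {m m' : ℂ} (h : IsMu H g m) (h' : IsMu H g m') : m = m' := by
  obtain ⟨a, ha⟩ := h
  obtain ⟨b, hb⟩ := h'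
  have h1 := ha (max a b) (le_max_left _ _)
  have h2 := hb (max a b) (le_max_right _ _)
  rw [h1] at h2
  exact mul_right_cancel₀ (pow_ne_zero _ (by norm_num)) h2

theorem quad (hH : CountData H) (g : GA) : ∃ n₀ : ℕ, ∀ n : ℕ, n₀ ≤ n →
    H (g * zi ^ (-((n + 1 : ℕ) : ℤ))) = 4 * H (g * zi ^ (-(n : ℤ))) := by
  have hcard : Dinf.T.card = 2 := by
    rw [Dinf_T]; exact Finset.card_pair zero_ne_one
  obtain ⟨a, ha⟩ := hH.sur none Dinf g
  obtain ⟨b, hb⟩ := hH.sur none Dinf (g * inj none Dinf.al * inj none ws)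
  refine ⟨a + b, fun n hn => ?_⟩
  have h1 := ha (n + 1) (by omega)
  have h2 := hb (n + 1) (by omega)
  rw [hcard] at h1 h2
  have e1 : g * inj none Dinf.al * inj none ws * zi ^ (-((n + 1 : ℕ) : ℤ)) =
      g * inj none Dinf.al * zi ^ (-((n + 1 : ℕ) : ℤ)) * inj none ws := by
    rw [mul_assoc (g * inj none Dinf.al), ← zpow_comm, ← mul_assoc]
  have e2 : g * inj none Dinf.al * inj none ws * inj none Dinf.al * zi ^ (-((n + 1 : ℕ) : ℤ)) =
      g * zi ^ (-(n : ℤ)) * inj none ws := by
    have e3 : g * inj none Dinf.al * inj none ws * inj none Dinf.al = g * zi * inj none ws := by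
      rw [mul_assoc g, mul_assoc g, ← map_mul, ← map_mul, al_ws_al, map_mul, ← mul_assoc]
      rfl
    rw [e3, mul_assoc (g * zi), ← zpow_comm, ← mul_assoc, mul_assoc g zi]
    congr 2
    rw [← zpow_one_add]
    congr 1
    push_cast; ring
  rw [e1, e2, hH.right _ _ (inj_mem none ws_mem), hH.right _ _ (inj_mem none ws_mem)] at h2
  rw [h1, h2]
  ring

theorem exists_mu (hH : CountData H) (g : GA) : ∃ m : ℂ, IsMu H g m := by
  obtain ⟨a, ha⟩ := quad hH g
  refine ⟨(H (g * zi ^ (-(a : ℤ))) : ℂ) / 4 ^ a, a, fun n hn => ?_⟩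
  induction n, hn using Nat.le_induction with
  | base => field_simp
  | succ n hn ih =>
    rw [ha n hn, Nat.cast_mul, ih, pow_succ]
    push_cast; ring

/-- the growth constant -/
noncomputable def mu (H : GA → ℕ) (g : GA) : ℂ := by
  classical exact if h : ∃ m : ℂ, IsMu H g m then h.choose else 1

theorem mu_spec (hH : CountData H) (g : GA) : IsMu H g (mu H g) := by
  unfold mu
  rw [dif_pos (exists_mu hH g)]
  exact (exists_mu hH g).choose_spec

theorem mu_eq (hH : CountData H) {g : GA} {m : ℂ} (h : IsMu H g m) : mu H g = m :=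
  (mu_spec hH g).unique h

theorem mu_ne (hH : CountData H) (g : GA) : mu H g ≠ 0 := by
  intro h0
  obtain ⟨a, ha⟩ := mu_spec hH g
  have h1 := ha a le_rfl
  rw [h0, zero_mul] at h1
  have h2 := hH.pos (g * zi ^ (-(a : ℤ)))
  have h3 : H (g * zi ^ (-(a : ℤ))) = 0 := by exact_mod_cast h1
  omega

theorem mu_left (hH : CountData H) (γ : GL (Fin 2) KK) (g g' : GA)
    (h : ∀ p, g' p = locK p γ * g p) : mu H g' = mu H g := by
  refine mu_eq hH ?_
  obtain ⟨a, ha⟩ := mu_spec hH g
  refine ⟨a, fun n hn => ?_⟩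
  rw [← ha n hn]
  congr 1
  refine hH.left γ _ _ fun p => ?_
  rw [mul_apply, mul_apply, h p, mul_assoc]

theorem mu_right (hH : CountData H) (g k : GA) (hk : ∀ p, k p ∈ maxK (Kv p)) :
    mu H (g * k) = mu H g := by
  refine mu_eq hH ?_
  obtain ⟨a, ha⟩ := mu_spec hH g
  refine ⟨a, fun n hn => ?_⟩
  rw [← ha n hn]
  congr 1
  rw [mul_assoc, ← zpow_comm, ← mul_assoc]
  exact hH.right _ _ hk

theorem mu_zi (hH : CountData H) (g : GA) : mu H (g * zi) = mu H g / 4 := by
  refine mu_eq hH ?_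
  obtain ⟨a, ha⟩ := mu_spec hH g
  refine ⟨a + 1, fun n hn => ?_⟩
  obtain ⟨m, rfl⟩ : ∃ m, n = m + 1 := ⟨n - 1, by omega⟩
  have e : g * zi * zi ^ (-((m + 1 : ℕ) : ℤ)) = g * zi ^ (-(m : ℤ)) := by
    rw [mul_assoc, ← zpow_one_add]
    congr 2
    push_cast; ring
  rw [e, ha m (by omega), pow_succ]
  ring

theorem mu_zpow (hH : CountData H) (g : GA) (n : ℕ) :
    mu H (g * zi ^ (-(n : ℤ))) = mu H g * 4 ^ n := by
  induction n with
  | zero => simp
  | succ n ih =>
    have h1 := mu_zi hH (g * zi ^ (-((n + 1 : ℕ) : ℤ)))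
    have e : g * zi ^ (-((n + 1 : ℕ) : ℤ)) * zi = g * zi ^ (-(n : ℤ)) := by
      rw [mul_assoc, ← zpow_add_one]
      congr 2
      push_cast; ring
    rw [e, ih] at h1
    rw [pow_succ]
    linear_combination (-4 : ℂ) * h1

theorem card_ne {p : Pl} (D : LD (Kv p)) : (D.T.card : ℂ) ≠ 0 := by
  have : D.T.card ≠ 0 := by
    rw [Finset.card_ne_zero]; exact ⟨0, D.hT0⟩
  exact_mod_cast this

theorem mu_al (hH : CountData H) (p : Pl) (D : LD (Kv p)) (g : GA) :
    mu H (g * inj p D.al) = mu H g / D.T.card := by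
  refine mu_eq hH ?_
  obtain ⟨a, ha⟩ := mu_spec hH g
  obtain ⟨b, hb⟩ := hH.sur p D g
  refine ⟨a + b, fun n hn => ?_⟩
  have h1 := ha n (by omega)
  have h2 := hb n (by omega)
  rw [h2, Nat.cast_mul] at h1
  have hc := card_ne D
  rw [div_mul_eq_mul_div, eq_div_iff hc, ← h1, mul_comm]

theorem mu_kal (hH : CountData H) (p : Pl) (D : LD (Kv p)) (g : GA) {k : GL (Fin 2) (Kv p)}
    (hk : k ∈ maxK (Kv p)) : mu H (g * inj p (k * D.al)) = mu H g / D.T.card := by
  rw [map_mul, ← mul_assoc, mu_al hH, mu_right hH _ _ (inj_mem p hk)]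

theorem mu_z (hH : CountData H) (p : Pl) (D : LD (Kv p)) (g : GA) :
    mu H (g * inj p D.z) = mu H g / D.T.card ^ 2 := by
  have h1 : mu H (g * inj p (D.al * ws * D.al)) = mu H g / D.T.card ^ 2 := by
    rw [map_mul, map_mul, ← mul_assoc, ← mul_assoc, mu_al hH, mu_right hH _ _ (inj_mem p ws_mem),
      mu_al hH, sq, div_div]
  rw [al_ws_al, map_mul, ← mul_assoc, mu_right hH _ _ (inj_mem p ws_mem)] at h1
  exact h1

/-! ### The function `b` -/

/-- normalised counting function -/
noncomputable def Th (H : GA → ℕ) (g : GA) : ℂ := (H g : ℂ) / mu H g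

/-- the local term -/
noncomputable def bb (H : GA → ℕ) (g : GA) : ℂ := Th H g - Th H (g * zi) / 4

theorem Th_left (hH : CountData H) (γ : GL (Fin 2) KK) (g g' : GA)
    (h : ∀ p, g' p = locK p γ * g p) : Th H g' = Th H g := by
  unfold Th
  rw [hH.left γ g g' h, mu_left hH γ g g' h]

theorem bb_left (hH : CountData H) (γ : GL (Fin 2) KK) (g g' : GA)
    (h : ∀ p, g' p = locK p γ * g p) : bb H g' = bb H g := by
  unfold bb
  rw [Th_left hH γ g g' h, Th_left hH γ (g * zi) (g' * zi) fun p => by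
    rw [mul_apply, mul_apply, h p, mul_assoc]]

theorem Th_right (hH : CountData H) (g k : GA) (hk : ∀ p, k p ∈ maxK (Kv p)) :
    Th H (g * k) = Th H g := by
  unfold Th
  rw [hH.right _ _ hk, mu_right hH _ _ hk]

theorem bb_right (hH : CountData H) (g k : GA) (hk : ∀ p, k p ∈ maxK (Kv p)) :
    bb H (g * k) = bb H g := by
  unfold bb
  rw [Th_right hH _ _ hk, mul_assoc, ← zi_comm, ← mul_assoc, Th_right hH _ _ hk]

theorem Th_hecke (hH : CountData H) (p : Pl) (D : LD (Kv p)) (g : GA) :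
    ∑ t ∈ D.T, Th H (g * inj p (lo t * D.al)) + Th H (g * inj p (ws * D.al)) =
      D.T.card * Th H g + Th H (g * inj p D.z) := by
  have hm := mu_ne hH g
  have hc := card_ne D
  have h1 : ∀ t ∈ D.T, Th H (g * inj p (lo t * D.al)) =
      (H (g * inj p (lo t * D.al)) : ℂ) * (D.T.card / mu H g) := by
    intro t ht
    unfold Th
    rw [mu_kal hH p D g (lo_mem (D.hT t ht))]
    field_simp
  have h2 : Th H (g * inj p (ws * D.al)) =
      (H (g * inj p (ws * D.al)) : ℂ) * (D.T.card / mu H g) := by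
    unfold Th
    rw [mu_kal hH p D g ws_mem]
    field_simp
  have h3 : Th H (g * inj p D.z) = (H (g * inj p D.z) : ℂ) * (D.T.card ^ 2 / mu H g) := by
    unfold Th
    rw [mu_z hH p D g]
    field_simp
  have h4 : ((∑ t ∈ D.T, H (g * inj p (lo t * D.al)) +
    H (g * inj p (ws * D.al)) : ℕ) : ℂ) = ((H g + D.T.card * H (g * inj p D.z) : ℕ) : ℂ) := by
    rw [hH.count p D g]
  push_cast at h4
  rw [Finset.sum_congr rfl h1, ← Finset.sum_mul, h2, h3, ← add_mul, h4]
  unfold Th
  field_simp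

theorem bb_hecke (hH : CountData H) (p : Pl) (D : LD (Kv p)) (g : GA) :
    ∑ t ∈ D.T, bb H (g * inj p (lo t * D.al)) + bb H (g * inj p (ws * D.al)) =
      D.T.card * bb H g + bb H (g * inj p D.z) := by
  have h1 := Th_hecke hH p D g
  have h2 := Th_hecke hH p D (g * zi)
  have e : ∀ k : GL (Fin 2) (Kv p), g * inj p k * zi = g * zi * inj p k := by
    intro k
    rw [mul_assoc, ← zi_comm, ← mul_assoc]
  unfold bb
  simp only [e]
  rw [Finset.sum_sub_distrib, ← Finset.sum_div]
  linear_combination h1 - h2 / 4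

theorem bb_eq (hH : CountData H) (g : GA) : bb H g = ((H g : ℂ) - H (g * zi)) / mu H g := by
  have hm := mu_ne hH g
  unfold bb Th
  rw [mu_zi hH g]
  field_simp

/-- `b` along powers of `zi` -/
noncomputable def seq (H : GA → ℕ) (g : GA) (n : ℤ) : ℂ := bb H (g * zi ^ n)

theorem seq_good (hH : CountData H) (g : GA) : Good (3 / 4) (seq H g) := by
  constructor
  · obtain ⟨a, ha⟩ := hH.one g
    refine ⟨a, fun n hn => ?_⟩
    unfold seq
    have e : g * zi ^ (n : ℤ) * zi = g * zi ^ (n + 1) := by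
      rw [zpow_natCast, mul_assoc, ← pow_succ]
    rw [bb_eq hH, e, zpow_natCast, ha n hn, ha (n + 1) (by omega)]
    simp
  · obtain ⟨a, ha⟩ := mu_spec hH g
    refine ⟨a + 1, fun n hn => ?_⟩
    obtain ⟨m, rfl⟩ : ∃ m, n = m + 1 := ⟨n - 1, by omega⟩
    unfold seq
    have e : g * zi ^ (-((m + 1 : ℕ) : ℤ)) * zi = g * zi ^ (-(m : ℤ)) := by
      rw [mul_assoc, ← zpow_add_one]
      congr 2
      push_cast; ring
    have hm := mu_ne hH g
    rw [bb_eq hH, e, mu_zpow hH, ha (m + 1) (by omega), ha m (by omega), pow_succ]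
    field_simp
    norm_num

/-- the regularised sum `E` -/
noncomputable def E (H : GA → ℕ) (g : GA) : ℂ := EE (3 / 4) (seq H g)

theorem E_left (hH : CountData H) (γ : GL (Fin 2) KK) (g g' : GA)
    (h : ∀ p, g' p = locK p γ * g p) : E H g' = E H g := by
  unfold E
  congr 1
  funext n
  unfold seq
  exact bb_left hH γ _ _ fun p => by rw [mul_apply, mul_apply, h p, mul_assoc]

theorem E_right (hH : CountData H) (g k : GA) (hk : ∀ p, k p ∈ maxK (Kv p)) :
    E H (g * k) = E H g := by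
  unfold E
  congr 1
  funext n
  unfold seq
  rw [mul_assoc, ← zpow_comm, ← mul_assoc, bb_right hH _ _ hk]

theorem E_zi (hH : CountData H) (g : GA) : E H (g * zi) = E H g - 3 / 4 := by
  have h1 := EE_shift (seq_good hH g)
  unfold E
  rw [← h1]
  congr 1
  funext n
  unfold seq
  rw [mul_assoc, ← zpow_one_add, add_comm]

theorem E_pow (hH : CountData H) (g : GA) (d : ℕ) : E H (g * zi ^ d) = E H g - d * (3 / 4) := by
  induction d with
  | zero => simp
  | succ d ih =>
    rw [pow_succ, ← mul_assoc, E_zi hH, ih]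
    push_cast; ring

theorem E_hecke (hH : CountData H) (p : Pl) (D : LD (Kv p)) (g : GA) :
    ∑ t ∈ D.T, E H (g * inj p (lo t * D.al)) + E H (g * inj p (ws * D.al)) =
      D.T.card * E H g + E H (g * inj p D.z) := by
  unfold E
  refine EE_rel D.T (fun t => seq H (g * inj p (lo t * D.al))) _ _ _
    (fun t _ => seq_good hH _) (seq_good hH _) (seq_good hH _) (seq_good hH _) fun n => ?_
  unfold seq
  have e : ∀ k : GL (Fin 2) (Kv p), g * inj p k * zi ^ n = g * zi ^ n * inj p k := by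
    intro k
    rw [mul_assoc, ← zpow_comm, ← mul_assoc]
  simp only [e]
  exact bb_hecke hH p D (g * zi ^ n)

theorem E_zv (hH : CountData H) (v : HeightOneSpectrum (ZMod 2)[X]) (D : LD (Kv (some v))) :
    ∃ d : ℕ, ∀ g, E H (g * inj (some v) D.z) = E H g - d * (3 / 4) := by
  obtain ⟨d, hd⟩ := hH.scal v D
  refine ⟨d, fun g => ?_⟩
  rw [← E_pow hH g d]
  have hmu : ∀ g, mu H (g * inj (some v) D.z) = mu H (g * zi ^ d) := by
    intro g
    refine mu_eq hH ?_
    obtain ⟨a, ha⟩ := mu_spec hH (g * zi ^ d)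
    refine ⟨a, fun n hn => ?_⟩
    rw [← ha n hn, mul_assoc, ← zpow_comm, ← mul_assoc, hd, mul_assoc, zpow_comm, ← mul_assoc]
  have hTh : ∀ g, Th H (g * inj (some v) D.z) = Th H (g * zi ^ d) := by
    intro g
    unfold Th
    rw [hd, hmu]
  have hbb : ∀ g, bb H (g * inj (some v) D.z) = bb H (g * zi ^ d) := by
    intro g
    unfold bb
    rw [hTh, mul_assoc, ← zi_comm, ← mul_assoc, hTh, mul_assoc, zi_comm, ← mul_assoc]
  unfold E
  congr 1
  funext n
  unfold seq
  rw [mul_assoc, ← zpow_comm, ← mul_assoc, hbb, mul_assoc, zpow_comm, ← mul_assoc]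

/-! ### The form -/

/-- the form -/
noncomputable def ff (H : GA → ℕ) (g : GA) : ℂ := E H (g * inj none Dinf.al) - E H g

theorem conj_mem {k : GL (Fin 2) (Kv none)} (hk : k ∈ Iw (Kv none)) :
    Dinf.al⁻¹ * k * Dinf.al ∈ maxK (Kv none) := by
  have hϖ := Dinf.hϖ
  have hne := Dinf.ne
  have hc : Valued.v (k 1 0) ≤ exp (-1 : ℤ) := by
    rcases eq_or_ne (Valued.v (k 1 0)) 0 with h0 | h0
    · rw [h0]; exact zero_le
    · have h1 := hk.2
      rw [← exp_log h0, ← exp_zero, exp_lt_exp] at h1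
      rw [← exp_log h0, exp_le_exp]
      omega
  have e00 : (Dinf.al⁻¹ * k * Dinf.al) 0 0 = k 0 0 := by
    simp [mul_ij, LD.al, inv_00, inv_01, dt, dg, hne]
  have e01 : (Dinf.al⁻¹ * k * Dinf.al) 0 1 = k 0 1 * Dinf.ϖ := by
    simp [mul_ij, LD.al, inv_00, inv_01, dt, dg, hne]
  have e10 : (Dinf.al⁻¹ * k * Dinf.al) 1 0 = Dinf.ϖ⁻¹ * k 1 0 := by
    simp [mul_ij, LD.al, inv_10, inv_11, dt, dg]
  have e11 : (Dinf.al⁻¹ * k * Dinf.al) 1 1 = k 1 1 := by
    simp [mul_ij, LD.al, inv_10, inv_11, dt, dg]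
    field_simp
  have hK := Iw_le hk
  refine ⟨fun i j => ?_, ?_⟩
  · fin_cases i <;> fin_cases j
    · show Valued.v ((Dinf.al⁻¹ * k * Dinf.al) 0 0) ≤ 1
      rw [e00]; exact hK.1 _ _
    · show Valued.v ((Dinf.al⁻¹ * k * Dinf.al) 0 1) ≤ 1
      rw [e01, map_mul, hϖ]
      exact mul_le_one' (hK.1 _ _) (by rw [← exp_zero, exp_le_exp]; omega)
    · show Valued.v ((Dinf.al⁻¹ * k * Dinf.al) 1 0) ≤ 1
      rw [e10, map_mul, map_inv₀, hϖ]
      refine (mul_le_mul_right hc _).trans ?_
      rw [inv_mul_cancel₀ exp_ne_zero]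
    · show Valued.v ((Dinf.al⁻¹ * k * Dinf.al) 1 1) ≤ 1
      rw [e11]; exact hK.1 _ _
  · rw [dt_mul, dt_mul, dt_inv, mul_comm, ← mul_assoc, mul_inv_cancel₀ (dt_ne_zero _), one_mul]
    exact hK.2

theorem main : S_eis := by
  intro H hH
  refine ⟨ff H, 3 / 4, ?_⟩
  constructor
  · norm_num
  · intro γ g g' h
    unfold ff
    rw [E_left hH γ g g' h, E_left hH γ (g * inj none Dinf.al) (g' * inj none Dinf.al) fun p => by
      rw [mul_apply, mul_apply, h p, mul_assoc]]
  · intro g k hk hk'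
    unfold ff
    rw [E_right hH g k hk]
    congr 1
    have e : g * k * inj none Dinf.al =
        g * inj none Dinf.al * ((inj none Dinf.al)⁻¹ * k * inj none Dinf.al) := by
      group
    rw [e]
    refine E_right hH _ _ fun p => ?_
    rw [mul_apply, mul_apply, inv_apply]
    rcases eq_or_ne p none with rfl | hp
    · rw [inj_same]; exact conj_mem hk'
    · rw [inj_ne hp, inv_one, one_mul, mul_one]; exact hk p
  · intro g
    unfold ff
    have e1 : g * inj none Dinf.w * inj none Dinf.al = g * zi * inj none ws := by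
      unfold LD.w
      rw [mul_assoc, ← map_mul, al_ws_al, map_mul, ← mul_assoc]
      rfl
    have e2 : g * inj none Dinf.w = g * inj none Dinf.al * inj none ws := by
      unfold LD.w
      rw [map_mul, ← mul_assoc]
    rw [e1, e2, E_right hH _ _ (inj_mem none ws_mem), E_right hH _ _ (inj_mem none ws_mem),
      E_zi hH]
    ring
  · intro g
    unfold ff
    have h1 : ∀ t ∈ Dinf.T, E H (g * inj none (lo t) * inj none Dinf.al) -
        E H (g * inj none (lo t)) = E H (g * inj none (lo t * Dinf.al)) - E H g := by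
      intro t ht
      rw [E_right hH _ _ (inj_mem none (lo_mem (Dinf.hT t ht))), mul_assoc, ← map_mul]
    rw [Finset.sum_congr rfl h1, Finset.sum_sub_distrib, Finset.sum_const, nsmul_eq_mul,
      E_right hH _ _ (inj_mem none ws_mem), mul_assoc, ← map_mul]
    have h2 := E_hecke hH none Dinf g
    have h3 : E H (g * inj none Dinf.z) = E H g - 3 / 4 := E_zi hH g
    rw [h3] at h2
    linear_combination h2
  · intro v D g
    obtain ⟨d, hd⟩ := E_zv hH v D
    unfold ff
    rw [mul_assoc, inj_comm (by simp : (some v : Pl) ≠ none), ← mul_assoc, hd, hd]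
    ring
  · intro v D g
    obtain ⟨d, hd⟩ := E_zv hH v D
    have h1 := E_hecke hH (some v) D g
    have h2 := E_hecke hH (some v) D (g * inj none Dinf.al)
    have e : ∀ k : GL (Fin 2) (Kv (some v)), g * inj (some v) k * inj none Dinf.al =
        g * inj none Dinf.al * inj (some v) k := by
      intro k
      rw [mul_assoc, inj_comm (by simp : (some v : Pl) ≠ none), ← mul_assoc]
    unfold ff
    simp only [e]
    rw [Finset.sum_sub_distrib]
    rw [hd] at h1 h2
    linear_combination h2 - h1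

end Main

end Pool.Agent.W340.LLEis
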