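import Pool.Agent.W894.HT.MLib
import Pool.Agent.W352.HTCh3

/-!
# HN-DIG: digits of counting functions
-/

set_option autoImplicit false

namespace Pool.Agent.W340.HNDig

open Pool.Agent.NPC Pool.Agent.NPC.Cnt
open Pool.Agent.W894.HT
open Pool.Agent.NPC.W352HTCh3 (polyV pairBits_poly valB_inj)
open Pool.Agent.NPC.H549Convex (fp_of_poly)

theorem valB_replicate (n : ℕ) : valB (List.replicate n false) = 0 := by
  induction n with
  | zero => rfl
  | succ n ih => rw [List.replicate_succ, valB_cons, ih]; rfl

theorem sharpP_succ {f : List Bool → ℕ} (hf : SharpP f) : SharpP (fun x => f x + 1) := by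
  classical
  obtain ⟨V, p, hV, hf⟩ := hf
  obtain ⟨g, hg⟩ : ∃ g : List Bool × List Bool → Bool, g = fun q =>
      (decide (q.2.head?.getD false = false) &&
        decide (V (pairBits q.1 q.2.tail) = [true])) ||
      (decide (q.2.head?.getD false = true) && decide (valB q.2.tail = 0)) := ⟨_, rfl⟩
  have hgP : Poly g := by
    rw [hg]
    have h1 : Poly (fun q : List Bool × List Bool => q.2.head?.getD false) :=
      Poly.head?_getD (Poly.snd Poly.id) false
    have h2 : Poly (fun q : List Bool × List Bool => q.2.tail) :=
      Poly.tail (Poly.snd Poly.id)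
    exact Poly.or (Poly.and (Poly.decide_eq h1 (NPC.Poly.const false))
      (Poly.decide_eq (polyV hV (pairBits_poly (Poly.fst Poly.id) h2)) (NPC.Poly.const [true])))
      (Poly.and (Poly.decide_eq h1 (NPC.Poly.const true))
        (Poly.decide_eq (Poly.valBits h2) (NPC.Poly.const 0)))
  refine sharpP_of_poly g hgP (p + Polynomial.C 1) fun x => ?_
  obtain ⟨n, hn'⟩ : ∃ n, n = p.eval x.length := ⟨_, rfl⟩
  have hfin : {w : List Bool | w.length = n ∧ V (pairBits x w) = [true]}.Finite :=
    (List.finite_length_eq Bool n).subset fun w hw => hw.1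
  obtain ⟨S, hS⟩ : ∃ S : Finset (List Bool), S = hfin.toFinset := ⟨_, rfl⟩
  have hmem : ∀ w, w ∈ S ↔ w.length = n ∧ V (pairBits x w) = [true] := by
    intro w
    rw [hS, Set.Finite.mem_toFinset]
    rfl
  have hfS : f x = S.card := by
    rw [hf x, ← hn']
    exact Nat.subtype_card S hmem
  have hinj : Set.InjOn (List.cons false) (S : Set (List Bool)) := by
    intro a _ b _ h
    simpa using h
  have hnot : (true :: List.replicate n false) ∉ S.image (List.cons false) := by
    rw [Finset.mem_image]
    rintro ⟨w, -, hw⟩
    simp at hw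
  have hcard : f x + 1 = (insert (true :: List.replicate n false)
      (S.image (List.cons false))).card := by
    rw [Finset.card_insert_of_notMem hnot, Finset.card_image_of_injOn hinj, hfS]
  rw [hcard]
  symm
  refine Nat.subtype_card _ fun w => ?_
  rw [Finset.mem_insert, Finset.mem_image, Polynomial.eval_add, Polynomial.eval_C, ← hn', hg]
  constructor
  · rintro (rfl | ⟨w', hw', rfl⟩)
    · refine ⟨by simp, ?_⟩
      simp [valB_replicate]
    · obtain ⟨h1, h2⟩ := (hmem _).1 hw'
      refine ⟨by simp [h1], ?_⟩
      simp [h2]
  · rintro ⟨hl, hw⟩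
    cases w with
    | nil => simp at hl
    | cons b w' =>
      have hl' : w'.length = n := by simpa using hl
      cases b with
      | true =>
        left
        simp only [List.head?_cons, Option.getD_some, List.tail_cons, decide_true,
          Bool.true_and, Bool.or_eq_true, Bool.and_eq_true, decide_eq_true_eq] at hw
        have h0 : valB w' = 0 := by
          rcases hw with hw | hw
          · exact absurd hw.1 (by simp)
          · simpa using hw
        rw [valB_inj w' (List.replicate n false) (by rw [List.length_replicate, hl'])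
          (by rw [h0, valB_replicate])]
      | false =>
        right
        simp only [List.head?_cons, Option.getD_some, List.tail_cons, decide_true,
          Bool.true_and, Bool.or_eq_true, Bool.and_eq_true, decide_eq_true_eq] at hw
        refine ⟨w', (hmem _).2 ⟨hl', ?_⟩, rfl⟩
        rcases hw with hw | hw
        · simpa using hw
        · exact absurd hw.1 (by simp)

theorem sharpP_add {f : List Bool → ℕ} (hf : SharpP f) (c : ℕ) : SharpP (fun x => f x + c) := by
  induction c with
  | zero => exact hf
  | succ c ih => exact sharpP_succ ih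

theorem poly_sum (t : ℕ → List Bool → ℕ) (m : ℕ) (ht : ∀ c < m, Poly (t c)) :
    Poly (fun x => ∑ c ∈ Finset.range m, t c x) := by
  induction m with
  | zero => simpa using NPC.Poly.const 0
  | succ m ih =>
    have h : (fun x => ∑ c ∈ Finset.range (m + 1), t c x) =
        fun x => (∑ c ∈ Finset.range m, t c x) + t m x := by
      funext x
      rw [Finset.sum_range_succ]
    rw [h]
    exact Poly.add (ih fun c hc => ht c (by omega)) (ht m (by omega))

theorem main : S_DIG := by
  classical
  intro p hp h f hf
  have key : ∀ c < p, ∃ F : List Bool → List Bool, PolyTime F ∧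
      ∀ x, (f x % p = c ↔ F x ≠ [true]) := by
    intro c hc
    obtain ⟨F, hF, hFx⟩ := h {x | (f x + (p - c)) % p ≠ 0}
      ⟨fun x => f x + (p - c), sharpP_add hf (p - c), fun x => Iff.rfl⟩
    refine ⟨F, hF, fun x => ?_⟩
    rw [Ne, ← hFx x, Set.mem_ofPred_eq, not_not]
    constructor
    · intro h1
      have h2 := Nat.div_add_mod (f x) p
      rw [h1] at h2
      have h3 : f x + (p - c) = p * (f x / p + 1) := by
        rw [Nat.mul_add, Nat.mul_one]
        omega
      rw [h3, Nat.mul_mod_right]
    · intro h1
      obtain ⟨k, hk⟩ := Nat.dvd_of_mod_eq_zero h1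
      have hk0 : k ≠ 0 := by
        rintro rfl
        rw [Nat.mul_zero] at hk
        omega
      obtain ⟨j, rfl⟩ := Nat.exists_eq_succ_of_ne_zero hk0
      have h2 : f x = c + p * j := by
        rw [Nat.succ_eq_add_one, Nat.mul_add, Nat.mul_one] at hk
        omega
      rw [h2, Nat.add_mul_mod_self_left, Nat.mod_eq_of_lt hc]
  choose! F hF hFx using key
  have hsum : (fun x => f x % p) = fun x => ∑ c ∈ Finset.range p,
      (if F c x = [true] then 0 else c) := by
    funext x
    have hlt : f x % p < p := Nat.mod_lt _ hp.pos
    rw [Finset.sum_eq_single (f x % p)]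
    · rw [if_neg ((hFx _ hlt x).1 rfl)]
    · intro c hc hne
      rw [Finset.mem_range] at hc
      have : F c x = [true] := by
        by_contra h1
        exact hne ((hFx c hc x).2 h1).symm
      rw [if_pos this]
    · intro h1
      exact absurd (Finset.mem_range.2 hlt) h1
  rw [hsum]
  refine fp_of_poly (poly_sum (fun c x => if F c x = [true] then 0 else c) p fun c hc => ?_)
  exact Poly.ite (Poly.decide_eq (polyV (hF c hc) Poly.id) (NPC.Poly.const [true]))
    (NPC.Poly.const 0) (NPC.Poly.const c)

end Pool.Agent.W340.HNDig
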