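import Pool.Agent.W886.LS.Stm0
import Pool.Agent.H620R2.Gauge.A2

/-! # The padded language is in polynomial time -/

set_option autoImplicit false

namespace Pool.Agent.W340.LSPADP

open Pool.Agent.NPC Pool.Agent.H620R2.Gauge

/-- remove one leading `false` -/
def st (s : List Bool) : List Bool := if s.head?.getD true = true then s else s.tail

/-- remove all leading `false` -/
def dw (y : List Bool) : List Bool := st^[y.length] y

theorem st_nil : st [] = [] := rfl

theorem st_true (x : List Bool) : st (true :: x) = true :: x := rfl

theorem st_false (x : List Bool) : st (false :: x) = x := rfl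

theorem iter_nil (k : ℕ) : st^[k] [] = [] := by
  induction k with
  | zero => rfl
  | succ k ih => rw [Function.iterate_succ_apply, st_nil, ih]

theorem iter_true (k : ℕ) (x : List Bool) : st^[k] (true :: x) = true :: x := by
  induction k with
  | zero => rfl
  | succ k ih => rw [Function.iterate_succ_apply, st_true, ih]

theorem iter_rep (x : List Bool) : ∀ (s k : ℕ), s ≤ k →
    st^[k] (List.replicate s false ++ true :: x) = true :: x := by
  intro s
  induction s with
  | zero => intro k _; exact iter_true k x
  | succ s ih =>
    intro k hk
    obtain ⟨k', rfl⟩ : ∃ k', k = k' + 1 := ⟨k - 1, by omega⟩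
    rw [Function.iterate_succ_apply, List.replicate_succ, List.cons_append, st_false]
    exact ih k' (by omega)

theorem dw_rep (s : ℕ) (x : List Bool) : dw (List.replicate s false ++ true :: x) = true :: x := by
  unfold dw
  refine iter_rep x s _ ?_
  rw [List.length_append, List.length_replicate]
  omega

theorem dw_nil_of (y : List Bool) (h : true ∉ y) : dw y = [] := by
  have key : ∀ (y : List Bool) (k : ℕ), true ∉ y → y.length ≤ k → st^[k] y = [] := by
    intro y
    induction y with
    | nil => intro k _ _; exact iter_nil k
    | cons b y ih =>
      intro k h hk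
      rw [List.length_cons] at hk
      obtain ⟨k', rfl⟩ : ∃ k', k = k' + 1 := ⟨k - 1, by omega⟩
      cases b with
      | true => exact absurd (List.mem_cons_self) h
      | false =>
        rw [Function.iterate_succ_apply, st_false]
        exact ih k' (fun h' => h (List.mem_cons_of_mem _ h')) (by omega)
  exact key y _ h le_rfl

theorem split_of (y : List Bool) (h : true ∈ y) :
    ∃ (s : ℕ) (x : List Bool), y = List.replicate s false ++ true :: x := by
  induction y with
  | nil => exact absurd h List.not_mem_nil
  | cons b y ih =>
    cases b with
    | true => exact ⟨0, y, rfl⟩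
    | false =>
      have h' : true ∈ y := by simpa using h
      obtain ⟨s, x, rfl⟩ := ih h'
      exact ⟨s + 1, x, rfl⟩

theorem poly_st : Poly st :=
  Poly.ite (Poly.decide_eq (Poly.head?_getD Poly.id true) (NPC.Poly.const true)) Poly.id
    (Poly.tail Poly.id)

theorem sz_st (s : List Bool) : sz (st s) ≤ sz s := by
  cases s with
  | nil => exact le_rfl
  | cons b s =>
    cases b with
    | true => exact le_rfl
    | false =>
      rw [st_false]
      simp
      omega

theorem poly_dw : Poly dw := by
  refine (Poly.iterLen (l := fun y : List Bool => y) (s := fun y : List Bool => y)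
    (F := fun (_ : List Bool) (s : List Bool) => st s) Poly.id Poly.id
    (poly_st.comp (Poly.snd Poly.id)) Polynomial.X ?_).congr fun y => rfl
  intro a k _
  rw [Polynomial.eval_X]
  induction k with
  | zero => exact le_rfl
  | succ k ih =>
    rw [Function.iterate_succ_apply']
    exact (sz_st _).trans (ih (by omega))

theorem poly_replicate {α : Type} [TEnc α] {n : α → ℕ} (hn : UPoly n) :
    Poly (fun a => List.replicate (n a) false) := by
  have h := NPC.Poly.map (F := fun (_ : α) (_ : Unit) => false) hn (NPC.Poly.const false)
  exact h.congr fun a => by simp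

/-- the questions -/
def Q (y : List Bool) : List (List Bool) :=
  if dw y = [] then [] else
    [(dw y).tail ++ List.replicate ((y.length - (dw y).length) * (dw y).tail.length) false]

theorem poly_Q : Poly Q := by
  have ht : Poly (fun y : List Bool => (dw y).tail) := Poly.tail poly_dw
  unfold Q
  refine Poly.ite (Poly.decide_eq poly_dw (NPC.Poly.const [])) (NPC.Poly.const []) ?_
  refine Poly.cons (Poly.append ht (poly_replicate ?_)) (NPC.Poly.const [])
  refine UPoly.mul ?_ (UPoly.length ht)
  exact UPoly.of_le (Poly.sub (Poly.length Poly.id) (Poly.length poly_dw))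
    (UPoly.length Poly.id) (fun y => Nat.sub_le _ _)

theorem Q_rep (s : ℕ) (x : List Bool) : Q (List.replicate s false ++ true :: x) =
    [x ++ List.replicate (s * x.length) false] := by
  unfold Q
  rw [dw_rep, if_neg (List.cons_ne_nil _ _), List.tail_cons]
  have : (List.replicate s false ++ true :: x).length - (true :: x).length = s := by
    rw [List.length_append, List.length_replicate]
    omega
  rw [this]

theorem rep_inj (s s' : ℕ) (x x' : List Bool)
    (h : List.replicate s false ++ true :: x = List.replicate s' false ++ true :: x') :
    s = s' ∧ x = x' := by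
  have h1 := congrArg dw h
  rw [dw_rep, dw_rep] at h1
  have hx : x = x' := (List.cons_inj_right true).1 h1
  subst hx
  have h2 := congrArg List.length h
  simp only [List.length_append, List.length_replicate, List.length_cons] at h2
  exact ⟨by omega, rfl⟩

theorem task : Pool.Agent.W886.LS.S_PADP := by
  intro A
  refine ⟨fun y => (fun p : List Bool × List Bool => p.2) (y, (Q y).map A),
    IsFP.tt poly_Q (Poly.snd Poly.id), fun y => ?_⟩
  change y ∈ Pool.Agent.W886.LS.padLang A ↔ (Q y).map A = [true]
  constructor
  · rintro ⟨s, x, rfl, h⟩
    rw [Q_rep, List.map_cons, List.map_nil, h]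
  · intro h
    by_cases ht : true ∈ y
    · obtain ⟨s, x, rfl⟩ := split_of y ht
      rw [Q_rep, List.map_cons, List.map_nil] at h
      refine ⟨s, x, rfl, ?_⟩
      simpa using h
    · have : Q y = [] := by
        unfold Q
        rw [if_pos (dw_nil_of y ht)]
      rw [this] at h
      simp at h

end Pool.Agent.W340.LSPADP
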